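import Pool.Agent.WCT.Final

/-! The largest modulus of an independence root of a well-covered tree on `n` vertices is at least
`c n ^ (1 / 4)`. -/

set_option autoImplicit false

open Pool.Agent.WCT

namespace Pool.Agent.Results.MP_0460eb_co.PowerLowerBound

/-- There are `c > 0` and `n₀` such that for every even `n ≥ n₀` some well-covered tree on `n`
vertices has an independence root of modulus at least `c n ^ (1 / 4)`. -/
theorem result : ∃ c : ℝ, 0 < c ∧ ∃ n₀ : ℕ, ∀ n : ℕ, n₀ ≤ n → Even n →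
    ∃ (V : Type) (_ : Fintype V) (G : SimpleGraph V), Fintype.card V = n ∧ G.IsTree ∧
      WellCovered G ∧ ∃ z : ℂ, indepEval G z = 0 ∧ c * (n : ℝ) ^ (1 / 4 : ℝ) ≤ ‖z‖ := by
  obtain ⟨K, η, hK, hη, hKη, hη2, h0⟩ := Good.init
  set k : ℕ := ⌈12000 / η⌉₊ with hk
  have hk1 : 12000 / η ≤ k := Nat.le_ceil _
  set D : ℝ := ((17 / 16) ^ k + 1) * (1 + k) with hD
  have hD1 : 1 ≤ D := by
    have h1 : (1 : ℝ) ≤ (17 / 16) ^ k + 1 := by
      have : (0 : ℝ) ≤ (17 / 16) ^ k := by positivity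
      linarith
    have h2 : (1 : ℝ) ≤ 1 + k := by
      have : (0 : ℝ) ≤ k := Nat.cast_nonneg _
      linarith
    nlinarith
  have hD0 : 0 < D := by linarith
  refine ⟨(1 / (200 * D)) ^ (1 / 4 : ℝ), by positivity, 2 * ⌈6 + 232 * D⌉₊, ?_⟩
  intro n hn hev
  obtain ⟨Y, hY⟩ := hev
  have hYn : n = 2 * Y := by omega
  have hY1 : 6 + 232 * D ≤ Y := by
    have h1 : ⌈6 + 232 * D⌉₊ ≤ Y := by omega
    exact (Nat.le_ceil _).trans (by exact_mod_cast h1)
  set X : ℕ := ⌊((Y : ℝ) - 3) / D⌋₊ with hX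
  have hXle : (X : ℝ) ≤ ((Y : ℝ) - 3) / D := Nat.floor_le (by
    apply div_nonneg _ hD0.le
    linarith)
  have hXge : ((Y : ℝ) - 3) / D < X + 1 := Nat.lt_floor_add_one _
  have hX231 : 231 ≤ X := by
    rw [hX]
    apply Nat.le_floor
    rw [le_div_iff₀ hD0]
    push_cast
    linarith
  obtain ⟨N, hG, hNX, hXN⟩ := Good.cover hK hη hKη h0 X hX231
  obtain ⟨m, hm, hfin⟩ := final_root hK hη hKη hη2 hG k hk1
  have hN1 : 1 ≤ N := hG.1
  have hN1r : (1 : ℝ) ≤ N := by exact_mod_cast hN1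
  have hkr : (0 : ℝ) ≤ k := Nat.cast_nonneg _
  have h1 : ((m * (1 + k * N) : ℕ) : ℝ) ≤ Y - 3 := by
    push_cast
    have h2 : (1 : ℝ) + k * N ≤ (1 + k) * N := by nlinarith
    have h3 : (m : ℝ) * (1 + k * N) ≤ ((17 / 16) ^ k + 1) * ((1 + k) * N) :=
      mul_le_mul hm h2 (by positivity) (by positivity)
    have h4 : ((17 / 16 : ℝ) ^ k + 1) * ((1 + k) * N) = D * N := by rw [hD]; ring
    have h5 : D * N ≤ D * X := mul_le_mul_of_nonneg_left (by exact_mod_cast hNX) hD0.le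
    have h6 : D * X ≤ Y - 3 := by
      rw [le_div_iff₀ hD0] at hXle
      linarith
    linarith
  have h2 : m * (1 + k * N) + 3 ≤ Y := by
    have : ((m * (1 + k * N) : ℕ) : ℝ) + 3 ≤ Y := by linarith
    exact_mod_cast this
  obtain ⟨V, hV, G, hG1, hG2, hG3, z, hz1, hz2⟩ := hfin (Y - 2 - m * (1 + k * N)) (by omega)
  refine ⟨V, hV, G, ?_, hG1, hG2, z, hz1, ?_⟩
  · rw [hG3, hYn]
    omega
  · have h3 : (n : ℝ) / (200 * D) ≤ N := by
      have h4 : (X : ℝ) < 50 * N := by exact_mod_cast hXN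
      have h5 : (Y : ℝ) - 3 < (X + 1) * D := by rwa [div_lt_iff₀ hD0] at hXge
      rw [div_le_iff₀ (by positivity), hYn]
      push_cast
      have h6 : ((X : ℝ) + 1) * D ≤ (50 * N) * D := by
        apply mul_le_mul_of_nonneg_right _ hD0.le
        have : X + 1 ≤ 50 * N := hXN
        exact_mod_cast this
      nlinarith
    have h4 : (n : ℝ) / (200 * D) ≤ ‖z‖ ^ 4 := h3.trans hz2
    rw [← Real.mul_rpow (by positivity) (by positivity)]
    have h5 : (1 / (200 * D)) * (n : ℝ) ≤ ‖z‖ ^ 4 := by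
      calc (1 / (200 * D)) * (n : ℝ) = (n : ℝ) / (200 * D) := by ring
        _ ≤ _ := h4
    calc ((1 / (200 * D)) * (n : ℝ)) ^ (1 / 4 : ℝ) ≤ (‖z‖ ^ 4) ^ (1 / 4 : ℝ) :=
          Real.rpow_le_rpow (by positivity) h5 (by norm_num)
      _ = ‖z‖ := by
          rw [← Real.rpow_natCast, ← Real.rpow_mul (norm_nonneg _)]
          norm_num

end Pool.Agent.Results.MP_0460eb_co.PowerLowerBound
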